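import Pool.Agent.Y773.NV.St0

set_option autoImplicit false

/-!
Project NV (helper773): line integrals with Gaussian weight.  The first three theorems are taken
from `Pool.Agent.Helper242.KK.ShiftLine`.
-/

namespace Pool.Agent.Y185.NV

open Complex MeasureTheory Filter Topology
open Pool.Agent.Y773.NV

theorem shift_line_integrable {H : ℂ → ℂ} {a b K δ : ℝ} (hδ : 0 < δ)
    (hd : ∀ z : ℂ, z.im ∈ Set.uIcc a b → DifferentiableAt ℂ H z)
    (hb : ∀ z : ℂ, z.im ∈ Set.uIcc a b → ‖H z‖ ≤ K * Real.exp (-δ * z.re ^ 2)) {c : ℝ}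
    (hc : c ∈ Set.uIcc a b) : Integrable (fun t : ℝ => H (t + c * I)) := by
  have him : ∀ t : ℝ, ((t : ℂ) + c * I).im = c := by
    intro t
    simp
  have hre : ∀ t : ℝ, ((t : ℂ) + c * I).re = t := by
    intro t
    simp
  have hcont : Continuous (fun t : ℝ => H (t + c * I)) := by
    rw [continuous_iff_continuousAt]
    intro t
    have h1 : ContinuousAt H ((t : ℂ) + c * I) := by
      apply (hd _ _).continuousAt
      rw [him]
      exact hc
    have h2 : ContinuousAt (fun t : ℝ => (t : ℂ) + c * I) t := by fun_prop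
    exact ContinuousAt.comp (g := H) (f := fun t : ℝ => (t : ℂ) + c * I) h1 h2
  refine Integrable.mono' ((integrable_exp_neg_mul_sq hδ).const_mul K)
    hcont.aestronglyMeasurable (Eventually.of_forall fun t => ?_)
  have h3 := hb ((t : ℂ) + c * I) (by rw [him]; exact hc)
  rw [hre] at h3
  exact h3

theorem shift_line_vert {H : ℂ → ℂ} {a b K δ : ℝ}
    (hb : ∀ z : ℂ, z.im ∈ Set.uIcc a b → ‖H z‖ ≤ K * Real.exp (-δ * z.re ^ 2)) (T : ℝ) :
    ‖∫ y in a..b, H (T + y * I)‖ ≤ K * Real.exp (-δ * T ^ 2) * |b - a| := by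
  apply intervalIntegral.norm_integral_le_of_norm_le_const
  intro y hy
  have h1 : ((T : ℂ) + y * I).im = y := by simp
  have h2 : ((T : ℂ) + y * I).re = T := by simp
  have h3 := hb ((T : ℂ) + y * I) (by rw [h1]; exact Set.uIoc_subset_uIcc hy)
  rw [h2] at h3
  exact h3

/-- Shift of a horizontal line of integration. -/
theorem shift_line {H : ℂ → ℂ} {a b K δ : ℝ} (hδ : 0 < δ)
    (hd : ∀ z : ℂ, z.im ∈ Set.uIcc a b → DifferentiableAt ℂ H z)
    (hb : ∀ z : ℂ, z.im ∈ Set.uIcc a b → ‖H z‖ ≤ K * Real.exp (-δ * z.re ^ 2)) :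
    ∫ t : ℝ, H (t + a * I) = ∫ t : ℝ, H (t + b * I) := by
  have hrect : ∀ T : ℝ, (∫ x in (-T)..T, H (x + a * I)) - (∫ x in (-T)..T, H (x + b * I)) +
      I • (∫ y in a..b, H (T + y * I)) - I • (∫ y in a..b, H (((-T : ℝ) : ℂ) + y * I)) = 0 := by
    intro T
    have h1 := Complex.integral_boundary_rect_eq_zero_of_differentiableOn H
      (((-T : ℝ) : ℂ) + a * I) ((T : ℂ) + b * I) (by
        intro z hz
        apply (hd z _).differentiableWithinAt
        have h2 := hz.2
        simpa using h2)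
    simpa using h1
  have hA : Tendsto (fun T : ℝ => ∫ x in (-T)..T, H (x + a * I)) atTop
      (𝓝 (∫ t : ℝ, H (t + a * I))) :=
    intervalIntegral_tendsto_integral (shift_line_integrable hδ hd hb Set.left_mem_uIcc)
      tendsto_neg_atTop_atBot tendsto_id
  have hB : Tendsto (fun T : ℝ => ∫ x in (-T)..T, H (x + b * I)) atTop
      (𝓝 (∫ t : ℝ, H (t + b * I))) :=
    intervalIntegral_tendsto_integral (shift_line_integrable hδ hd hb Set.right_mem_uIcc)
      tendsto_neg_atTop_atBot tendsto_id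
  have hE : Tendsto (fun T : ℝ => K * Real.exp (-δ * T ^ 2) * |b - a|) atTop (𝓝 0) := by
    have h1 : Tendsto (fun T : ℝ => -δ * T ^ 2) atTop atBot :=
      (tendsto_pow_atTop two_ne_zero).const_mul_atTop_of_neg (by linarith)
    have h2 := Real.tendsto_exp_atBot.comp h1
    have h3 := (h2.const_mul K).mul_const |b - a|
    simpa using h3
  have hV1 : Tendsto (fun T : ℝ => I • (∫ y in a..b, H (T + y * I))) atTop (𝓝 0) := by
    apply squeeze_zero_norm (fun T => ?_) hE
    rw [norm_smul, norm_I, one_mul]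
    exact shift_line_vert hb T
  have hV2 : Tendsto (fun T : ℝ => I • (∫ y in a..b, H (((-T : ℝ) : ℂ) + y * I))) atTop (𝓝 0) := by
    apply squeeze_zero_norm (fun T => ?_) hE
    rw [norm_smul, norm_I, one_mul]
    have h1 := shift_line_vert hb (-T)
    rw [neg_sq] at h1
    exact h1
  have hlim := ((hA.sub hB).add hV1).sub hV2
  simp only [hrect] at hlim
  have h0 := tendsto_nhds_unique hlim tendsto_const_nhds
  rw [add_zero, sub_zero] at h0
  exact sub_eq_zero.1 h0


theorem pt_re (c v : ℝ) : (pt c v).re = c := by simp [pt]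

theorem pt_im (c v : ℝ) : (pt c v).im = v := by simp [pt]

theorem pt_cont (c : ℝ) : Continuous (pt c) := by
  unfold pt; fun_prop

/-- shift of a vertical line -/
theorem shift_vert {G : ℂ → ℂ} {l r K δ : ℝ} (hlr : l ≤ r) (hδ : 0 < δ)
    (hd : ∀ w : ℂ, l ≤ w.re → w.re ≤ r → DifferentiableAt ℂ G w)
    (hb : ∀ w : ℂ, l ≤ w.re → w.re ≤ r → ‖G w‖ ≤ K * Real.exp (-δ * w.im ^ 2)) :
    ∫ v : ℝ, G (pt r v) = ∫ v : ℝ, G (pt l v) := by
  have hu : Set.uIcc (-r) (-l) = Set.Icc (-r) (-l) := Set.uIcc_of_le (by linarith)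
  have h := shift_line (H := fun z => G (I * z)) (a := -r) (b := -l) (K := K) hδ
    (by
      intro z hz
      rw [hu] at hz
      have h1 : (I * z).re = -z.im := by simp
      have h2 : DifferentiableAt ℂ G (I * z) := hd _ (by rw [h1]; linarith [hz.2])
        (by rw [h1]; linarith [hz.1])
      exact DifferentiableAt.comp (g := G) (f := fun z => I * z) z h2 (by fun_prop))
    (by
      intro z hz
      rw [hu] at hz
      have h1 : (I * z).re = -z.im := by simp
      have h2 : (I * z).im = z.re := by simp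
      have := hb (I * z) (by rw [h1]; linarith [hz.2]) (by rw [h1]; linarith [hz.1])
      rwa [h2] at this)
  have e : ∀ c v : ℝ, I * ((v : ℂ) + ((-c : ℝ) : ℂ) * I) = pt c v := by
    intro c v
    unfold pt
    push_cast
    linear_combination (-(c : ℂ)) * I_mul_I
  simp only [e] at h
  exact h

/-- the Gaussian weight -/
theorem norm_gauss (w : ℂ) : ‖cexp (w ^ 2)‖ = Real.exp (w.re ^ 2 - w.im ^ 2) := by
  rw [norm_exp]
  congr 1
  rw [sq, mul_re]; ring

theorem gauss_le (A v : ℝ) : A * |v| - v ^ 2 ≤ A ^ 2 / 2 + -(1 / 2) * v ^ 2 := by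
  nlinarith [sq_nonneg (A - |v|), sq_abs v]

theorem GI_int (k : ℕ) (c A : ℝ) :
    Integrable (fun v : ℝ => Real.exp (A * |v| + c ^ 2 - v ^ 2) / |c| ^ k) := by
  refine Integrable.div_const ?_ _
  have h0 : Integrable fun v : ℝ => Real.exp (A ^ 2 / 2 + c ^ 2) * Real.exp (-(1 / 2) * v ^ 2) :=
    (integrable_exp_neg_mul_sq (by norm_num : (0 : ℝ) < 1 / 2)).const_mul _
  refine Integrable.mono' h0 (by fun_prop) (Eventually.of_forall fun v => ?_)
  rw [Real.norm_of_nonneg (Real.exp_pos _).le, ← Real.exp_add]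
  apply Real.exp_le_exp.2
  have := gauss_le A v
  linarith

theorem norm_pt_ge (c v : ℝ) : |c| ≤ ‖pt c v‖ := by
  have := abs_re_le_norm (pt c v)
  rwa [pt_re] at this

theorem integrand_le (k : ℕ) (H : ℂ → ℂ) (c C A : ℝ) (hc : c ≠ 0 ∨ k = 0)
    (hb : ∀ v : ℝ, ‖H (pt c v)‖ ≤ C * Real.exp (A * |v|)) (v : ℝ) :
    ‖H (pt c v) * cexp (pt c v ^ 2) / pt c v ^ k‖ ≤
      C * (Real.exp (A * |v| + c ^ 2 - v ^ 2) / |c| ^ k) := by
  have hC : 0 ≤ C * Real.exp (A * |v|) := (norm_nonneg _).trans (hb v)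
  rw [norm_div, norm_mul, norm_gauss, norm_pow, pt_re, pt_im]
  have hck : 0 < |c| ^ k := by
    rcases hc with h | h
    · exact pow_pos (abs_pos.2 h) k
    · subst h; simp
  have h1 : |c| ^ k ≤ ‖pt c v‖ ^ k := pow_le_pow_left₀ (abs_nonneg c) (norm_pt_ge c v) k
  calc ‖H (pt c v)‖ * Real.exp (c ^ 2 - v ^ 2) / ‖pt c v‖ ^ k
      ≤ C * Real.exp (A * |v|) * Real.exp (c ^ 2 - v ^ 2) / |c| ^ k := by
        apply div_le_div₀ (mul_nonneg hC (Real.exp_pos _).le) _ hck h1
        exact mul_le_mul_of_nonneg_right (hb v) (Real.exp_pos _).le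
    _ = C * (Real.exp (A * |v| + c ^ 2 - v ^ 2) / |c| ^ k) := by
        rw [mul_assoc C, ← Real.exp_add]
        have : A * |v| + (c ^ 2 - v ^ 2) = A * |v| + c ^ 2 - v ^ 2 := by ring
        rw [this, mul_div_assoc]

theorem int_aux (k : ℕ) (H : ℂ → ℂ) (c C A : ℝ) (hc : c ≠ 0 ∨ k = 0)
    (hcont : Continuous (fun v : ℝ => H (pt c v)))
    (hb : ∀ v : ℝ, ‖H (pt c v)‖ ≤ C * Real.exp (A * |v|)) :
    Integrable (fun v : ℝ => H (pt c v) * cexp (pt c v ^ 2) / pt c v ^ k) := by
  refine Integrable.mono' ((GI_int k c A).const_mul C) ?_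
    (Eventually.of_forall fun v => integrand_le k H c C A hc hb v)
  refine Continuous.aestronglyMeasurable ?_
  refine Continuous.div (hcont.mul ?_) ((pt_cont c).pow k) fun v => ?_
  · exact Complex.continuous_exp.comp ((pt_cont c).pow 2)
  · rcases hc with h | h
    · apply pow_ne_zero
      intro h0
      have := pt_re c v
      rw [h0] at this
      exact h this.symm
    · subst h; simp

theorem t_int : St_INT := by
  intro k H c C A hc hC hcont hb
  refine ⟨int_aux k H c C A (Or.inl hc) hcont hb, ?_⟩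
  unfold JJ GI
  rw [← integral_const_mul]
  exact norm_integral_le_of_norm_le ((GI_int k c A).const_mul C)
    (Eventually.of_forall fun v => integrand_le k H c C A (Or.inl hc) hb v)

theorem strip_open (a b : ℝ) : IsOpen (strip a b) :=
  (isOpen_lt continuous_const Complex.continuous_re).inter
    (isOpen_lt Complex.continuous_re continuous_const)

theorem shift_gen (k : ℕ) (a b l r C A : ℝ) (H : ℂ → ℂ) (hal : a < l) (hlr : l < r) (hrb : r < b)
    (hk : k = 0 ∨ 0 < l ∨ r < 0) (hH : DifferentiableOn ℂ H (strip a b)) (hG : Grow H l r C A) :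
    JJ k H r = JJ k H l := by
  unfold JJ
  obtain ⟨ρ, hρ, hρ'⟩ : ∃ ρ : ℝ, 0 < ρ ∧ ∀ w : ℂ, l ≤ w.re → w.re ≤ r → ρ ^ k ≤ ‖w‖ ^ k ∧
      w ^ k ≠ 0 := by
    rcases hk with h | h | h
    · subst h
      exact ⟨1, one_pos, fun w _ _ => by simp⟩
    · refine ⟨l, h, fun w h1 _ => ?_⟩
      have h2 : l ≤ ‖w‖ := h1.trans ((le_abs_self _).trans (abs_re_le_norm w))
      exact ⟨pow_le_pow_left₀ h.le h2 k, pow_ne_zero _ (norm_pos_iff.1 (by linarith))⟩
    · refine ⟨-r, by linarith, fun w _ h1 => ?_⟩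
      have h2 : -r ≤ ‖w‖ := by
        have := (neg_le_abs w.re).trans (abs_re_le_norm w)
        linarith
      exact ⟨pow_le_pow_left₀ (by linarith) h2 k, pow_ne_zero _ (norm_pos_iff.1 (by linarith))⟩
  refine shift_vert (G := fun w => H w * cexp (w ^ 2) / w ^ k) (K := C * Real.exp (A ^ 2 / 2 +
    (l ^ 2 + r ^ 2)) / ρ ^ k) (δ := 1 / 2) hlr.le (by norm_num) ?_ ?_
  · intro w h1 h2
    have h3 : DifferentiableAt ℂ H w := hH.differentiableAt
      ((strip_open a b).mem_nhds ⟨by linarith, by linarith⟩)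
    exact (h3.mul (by fun_prop)).div (by fun_prop) (hρ' w h1 h2).2
  · intro w h1 h2
    have h3 := hG w h1 h2
    have hC : 0 ≤ C * Real.exp (A * |w.im|) := (norm_nonneg _).trans h3
    have h4 : w.re ^ 2 ≤ l ^ 2 + r ^ 2 := by
      rcases le_total 0 w.re with h | h
      · have := pow_le_pow_left₀ h h2 2
        nlinarith [sq_nonneg l]
      · have := pow_le_pow_left₀ (neg_nonneg.2 h) (neg_le_neg h1) 2
        nlinarith [sq_nonneg r]
    rw [norm_div, norm_mul, norm_gauss, norm_pow]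
    have hC' : 0 ≤ C := by
      by_contra h
      push Not at h
      have := mul_neg_of_neg_of_pos h (Real.exp_pos (A * |w.im|))
      linarith
    calc ‖H w‖ * Real.exp (w.re ^ 2 - w.im ^ 2) / ‖w‖ ^ k
        ≤ C * Real.exp (A * |w.im|) * Real.exp (w.re ^ 2 - w.im ^ 2) / ρ ^ k := by
          apply div_le_div₀ (mul_nonneg hC (Real.exp_pos _).le) _ (pow_pos hρ k) (hρ' w h1 h2).1
          exact mul_le_mul_of_nonneg_right h3 (Real.exp_pos _).le
      _ = C * Real.exp (A * |w.im| + (w.re ^ 2 - w.im ^ 2)) / ρ ^ k := by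
          rw [mul_assoc C, ← Real.exp_add]
      _ ≤ C * Real.exp ((A ^ 2 / 2 + (l ^ 2 + r ^ 2)) + -(1 / 2) * w.im ^ 2) / ρ ^ k := by
          have h5 := gauss_le A w.im
          have h6 : A * |w.im| + (w.re ^ 2 - w.im ^ 2) ≤
            (A ^ 2 / 2 + (l ^ 2 + r ^ 2)) + -(1 / 2) * w.im ^ 2 := by linarith
          have h7 := Real.exp_le_exp.2 h6
          gcongr
      _ = _ := by rw [Real.exp_add]; ring

theorem t_shift : St_SHIFT := by
  intro k a b l r C A H hal hlr hrb h hH hG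
  exact shift_gen k a b l r C A H hal hlr hrb (Or.inr h) hH hG

/-! ### the constants -/

theorem grow_one (l r : ℝ) : Grow (fun _ => 1) l r 1 0 := by
  intro w _ _; simp

theorem JJ_one_shift (k : ℕ) {l r : ℝ} (hlr : l < r) (hk : k = 0 ∨ 0 < l ∨ r < 0) :
    JJ k (fun _ => 1) r = JJ k (fun _ => 1) l :=
  shift_gen k (l - 1) (r + 1) l r 1 0 (fun _ => 1) (by linarith) hlr (by linarith) hk
    (differentiableOn_const _) (grow_one l r)

theorem JJ0_one (x : ℝ) : JJ 0 (fun _ => 1) x = ((√Real.pi : ℝ) : ℂ) := by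
  have h0 : JJ 0 (fun _ => 1) 0 = ((√Real.pi : ℝ) : ℂ) := by
    unfold JJ
    have h1 : ∀ v : ℝ, (1 : ℂ) * cexp (pt 0 v ^ 2) / pt 0 v ^ 0 =
        ((Real.exp (-1 * v ^ 2) : ℝ) : ℂ) := by
      intro v
      rw [one_mul, pow_zero, div_one, ofReal_exp]
      congr 1
      unfold pt
      push_cast
      rw [zero_add, mul_pow, I_sq]; ring
    simp only [h1]
    refine (integral_ofReal (𝕜 := ℂ) (μ := volume)
      (f := fun v : ℝ => Real.exp (-1 * v ^ 2))).trans ?_
    rw [integral_gaussian, div_one]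
    rfl
  rcases lt_trichotomy x 0 with h | h | h
  · rw [← JJ_one_shift 0 h (Or.inl rfl), h0]
  · rw [h, h0]
  · rw [JJ_one_shift 0 h (Or.inl rfl), h0]

theorem JJ1_one_one : JJ 1 (fun _ => 1) 1 = Real.pi := by
  unfold JJ
  have h1 : ∀ v : ℝ, (1 : ℂ) * cexp (pt 1 v ^ 2) / pt 1 v ^ 1 =
      ∫ u in Set.Ioi (0 : ℝ), cexp (pt 1 v ^ 2) * cexp (-pt 1 v * u) := by
    intro v
    rw [integral_const_mul, integral_exp_mul_complex_Ioi (by rw [neg_re, pt_re]; norm_num)]
    simp
    ring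
  simp only [h1]
  rw [integral_integral_swap]
  · have h2 : ∀ u : ℝ, ∫ v : ℝ, cexp (pt 1 v ^ 2) * cexp (-pt 1 v * u) =
        ((√Real.pi * Real.exp (-(1 / 4) * u ^ 2) : ℝ) : ℂ) := by
      intro u
      have h3 := JJ0_one (1 - u / 2)
      unfold JJ at h3
      have h4 : ∀ v : ℝ, cexp (pt 1 v ^ 2) * cexp (-pt 1 v * u) =
          (1 * cexp (pt (1 - u / 2) v ^ 2) / pt (1 - u / 2) v ^ 0) *
            ((Real.exp (-(1 / 4) * u ^ 2) : ℝ) : ℂ) := by
        intro v
        rw [one_mul, pow_zero, div_one, ofReal_exp, ← Complex.exp_add, ← Complex.exp_add]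
        congr 1
        unfold pt
        push_cast
        ring
      simp only [h4]
      rw [integral_mul_const, h3]
      push_cast
      ring
    simp only [h2]
    refine (integral_ofReal (𝕜 := ℂ) (μ := volume.restrict (Set.Ioi (0 : ℝ)))
      (f := fun u : ℝ => √Real.pi * Real.exp (-(1 / 4) * u ^ 2))).trans ?_
    rw [integral_const_mul, integral_gaussian_Ioi]
    show ((√Real.pi * (√(Real.pi / (1 / 4)) / 2) : ℝ) : ℂ) = (Real.pi : ℂ)
    congr 1
    rw [show Real.pi / (1 / 4) = 2 ^ 2 * Real.pi by ring, Real.sqrt_mul (by positivity),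
      Real.sqrt_sq (by norm_num)]
    have := Real.mul_self_sqrt Real.pi_pos.le
    linarith
  · have hi : Integrable (fun z : ℝ × ℝ => (Real.exp 1 * Real.exp (-1 * z.1 ^ 2)) *
        Real.exp (-z.2)) (volume.prod (volume.restrict (Set.Ioi (0 : ℝ)))) := by
      refine Integrable.mul_prod (f := fun v : ℝ => Real.exp 1 * Real.exp (-1 * v ^ 2))
        (g := fun u : ℝ => Real.exp (-u)) ?_ ?_
      · exact (integrable_exp_neg_mul_sq one_pos).const_mul _
      · have := integrableOn_exp_neg_Ioi (0 : ℝ)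
        exact this
    refine Integrable.mono' hi ?_ (Eventually.of_forall fun z => ?_)
    · refine Continuous.aestronglyMeasurable ?_
      have := pt_cont 1
      unfold Function.uncurry
      fun_prop
    · unfold Function.uncurry
      rw [norm_mul, norm_gauss, norm_exp, pt_re, pt_im]
      have e : (-pt 1 z.1 * (z.2 : ℂ)).re = -z.2 := by
        simp [pt]
      rw [e, ← Real.exp_add, ← Real.exp_add, ← Real.exp_add]
      apply le_of_eq
      congr 1
      ring

theorem JJ_one_neg (k : ℕ) (c : ℝ) : JJ k (fun _ => 1) (-c) = (-1) ^ k * JJ k (fun _ => 1) c := by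
  unfold JJ
  rw [← integral_neg_eq_self, ← integral_const_mul]
  refine integral_congr_ae (Eventually.of_forall fun v => ?_)
  have e : pt (-c) (-v) = -pt c v := by unfold pt; push_cast; ring
  simp only [e]
  rw [neg_sq, neg_pow (pt c v) k]
  rcases Nat.even_or_odd k with h | h
  · rw [h.neg_one_pow]; simp
  · rw [h.neg_one_pow]; rw [neg_one_mul, neg_one_mul, div_neg]

theorem JJ_one_pos (k : ℕ) {c : ℝ} (hc : 0 < c) : JJ k (fun _ => 1) c = JJ k (fun _ => 1) 1 := by
  rcases lt_trichotomy c 1 with h | h | h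
  · exact (JJ_one_shift k h (Or.inr (Or.inl hc))).symm
  · rw [h]
  · exact JJ_one_shift k h (Or.inr (Or.inl one_pos))

theorem JJ1_diff {l r : ℝ} (hl : l < 0) (hr : 0 < r) :
    JJ 1 (fun _ => 1) r - JJ 1 (fun _ => 1) l = 2 * Real.pi := by
  have h1 := JJ_one_neg 1 (-l)
  rw [neg_neg] at h1
  rw [h1, JJ_one_pos 1 hr, JJ_one_pos 1 (neg_pos.2 hl), JJ1_one_one]
  ring

theorem JJ2_diff {l r : ℝ} (hl : l < 0) (hr : 0 < r) :
    JJ 2 (fun _ => 1) r = JJ 2 (fun _ => 1) l := by
  have h1 := JJ_one_neg 2 (-l)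
  rw [neg_neg] at h1
  rw [h1, JJ_one_pos 2 hr, JJ_one_pos 2 (neg_pos.2 hl)]
  ring

/-! ### the residues -/

theorem line_cont {a b l r c : ℝ} {H : ℂ → ℂ} (hal : a < l) (hrb : r < b) (hlc : l ≤ c)
    (hcr : c ≤ r) (hH : DifferentiableOn ℂ H (strip a b)) :
    Continuous (fun v : ℝ => H (pt c v)) := by
  refine hH.continuousOn.comp_continuous (pt_cont c) fun v => ?_
  show a < (pt c v).re ∧ (pt c v).re < b
  rw [pt_re]
  constructor <;> linarith

theorem line_grow {l r c C A : ℝ} {H : ℂ → ℂ} (hlc : l ≤ c) (hcr : c ≤ r) (hG : Grow H l r C A)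
    (v : ℝ) : ‖H (pt c v)‖ ≤ C * Real.exp (A * |v|) := by
  have := hG (pt c v) (by rw [pt_re]; exact hlc) (by rw [pt_re]; exact hcr)
  rwa [pt_im] at this

theorem dslope_grow {a b l r C A : ℝ} {H : ℂ → ℂ} (hal : a < l) (hl : l < 0) (hr : 0 < r)
    (hrb : r < b) (hH : DifferentiableOn ℂ H (strip a b)) (hG : Grow H l r C A) :
    DifferentiableOn ℂ (dslope H 0) (strip a b) ∧ ∃ C' A' : ℝ, Grow (dslope H 0) l r C' A' := by
  have h0 : strip a b ∈ 𝓝 (0 : ℂ) := (strip_open a b).mem_nhds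
    ⟨by simp; linarith, by simp; linarith⟩
  have hD : DifferentiableOn ℂ (dslope H 0) (strip a b) := (differentiableOn_dslope h0).2 hH
  refine ⟨hD, ?_⟩
  have hK : IsCompact (Metric.closedBall (0 : ℂ) 1 ∩ {w | l ≤ w.re ∧ w.re ≤ r}) := by
    refine (isCompact_closedBall (0 : ℂ) 1).inter_right ?_
    exact (isClosed_le continuous_const Complex.continuous_re).inter
      (isClosed_le Complex.continuous_re continuous_const)
  obtain ⟨C2, hC2⟩ := hK.exists_bound_of_continuousOn (f := dslope H 0)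
    (hD.continuousOn.mono fun w hw => ⟨lt_of_lt_of_le hal hw.2.1, lt_of_le_of_lt hw.2.2 hrb⟩)
  have hCA : 0 ≤ C := by
    have := (norm_nonneg _).trans (hG 0 (by simp; linarith) (by simp; linarith))
    simpa using this
  refine ⟨C + ‖H 0‖ + |C2|, |A|, fun w h1 h2 => ?_⟩
  have hE1 : Real.exp (A * |w.im|) ≤ Real.exp (|A| * |w.im|) :=
    Real.exp_le_exp.2 (mul_le_mul_of_nonneg_right (le_abs_self A) (abs_nonneg _))
  have hE2 : 1 ≤ Real.exp (|A| * |w.im|) := Real.one_le_exp (by positivity)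
  by_cases hw : ‖w‖ ≤ 1
  · have h3 := hC2 w ⟨by simpa using hw, h1, h2⟩
    calc ‖dslope H 0 w‖ ≤ |C2| * 1 := by rw [mul_one]; exact h3.trans (le_abs_self _)
      _ ≤ (C + ‖H 0‖ + |C2|) * Real.exp (|A| * |w.im|) := by
          apply mul_le_mul _ hE2 zero_le_one (by positivity)
          linarith [norm_nonneg (H 0)]
  · push Not at hw
    have hw0 : w ≠ 0 := by
      intro h; rw [h, norm_zero] at hw; linarith
    rw [dslope_of_ne _ hw0, slope_def_field, sub_zero, norm_div]
    calc ‖H w - H 0‖ / ‖w‖ ≤ ‖H w - H 0‖ / 1 := by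
          apply div_le_div_of_nonneg_left (norm_nonneg _) one_pos hw.le
      _ = ‖H w - H 0‖ := div_one _
      _ ≤ ‖H w‖ + ‖H 0‖ := norm_sub_le _ _
      _ ≤ C * Real.exp (A * |w.im|) + ‖H 0‖ * 1 := by rw [mul_one]; linarith [hG w h1 h2]
      _ ≤ C * Real.exp (|A| * |w.im|) + ‖H 0‖ * Real.exp (|A| * |w.im|) := by gcongr
      _ ≤ (C + ‖H 0‖ + |C2|) * Real.exp (|A| * |w.im|) := by
          have : 0 ≤ |C2| * Real.exp (|A| * |w.im|) := by positivity
          linarith

theorem split_line {a b l r C A c : ℝ} {H : ℂ → ℂ} (k : ℕ) (hal : a < l) (hl : l < 0) (hr : 0 < r)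
    (hrb : r < b) (hlc : l ≤ c) (hcr : c ≤ r) (hc : c ≠ 0)
    (hH : DifferentiableOn ℂ H (strip a b)) (hG : Grow H l r C A) :
    JJ (k + 1) H c = H 0 * JJ (k + 1) (fun _ => 1) c + JJ k (dslope H 0) c := by
  obtain ⟨hD, C', A', hG'⟩ := dslope_grow hal hl hr hrb hH hG
  have i1 := int_aux (k + 1) (fun _ => 1) c 1 0 (Or.inl hc) continuous_const (fun v => by simp)
  have i2 := int_aux k (dslope H 0) c C' A' (Or.inl hc) (line_cont hal hrb hlc hcr hD)
    (line_grow hlc hcr hG')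
  unfold JJ
  rw [← integral_const_mul, ← integral_add (i1.const_mul _) i2]
  refine integral_congr_ae (Eventually.of_forall fun v => ?_)
  have hw : pt c v ≠ 0 := by
    intro h0
    have := pt_re c v
    rw [h0] at this
    exact hc this.symm
  have hs : H (pt c v) = H 0 + pt c v * dslope H 0 (pt c v) := by
    rw [dslope_of_ne _ hw, slope_def_field, sub_zero, mul_div_cancel₀ _ hw]
    ring
  show H (pt c v) * cexp (pt c v ^ 2) / pt c v ^ (k + 1) =
    H 0 * (1 * cexp (pt c v ^ 2) / pt c v ^ (k + 1)) +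
      dslope H 0 (pt c v) * cexp (pt c v ^ 2) / pt c v ^ k
  rw [hs]
  field_simp
  ring

theorem res1 {a b l r C A : ℝ} {H : ℂ → ℂ} (hal : a < l) (hl : l < 0) (hr : 0 < r)
    (hrb : r < b) (hH : DifferentiableOn ℂ H (strip a b)) (hG : Grow H l r C A) :
    JJ 1 H r - JJ 1 H l = 2 * Real.pi * H 0 := by
  obtain ⟨hD, C', A', hG'⟩ := dslope_grow hal hl hr hrb hH hG
  rw [split_line 0 hal hl hr hrb (by linarith) le_rfl hr.ne' hH hG,
    split_line 0 hal hl hr hrb le_rfl (by linarith) hl.ne hH hG,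
    shift_gen 0 a b l r C' A' (dslope H 0) hal (by linarith) hrb (Or.inl rfl) hD hG']
  have := JJ1_diff hl hr
  linear_combination H 0 * this

theorem t_res : St_RES := by
  intro a b l r C A H hal hl hr hrb hH hG
  refine ⟨res1 hal hl hr hrb hH hG, ?_⟩
  obtain ⟨hD, C', A', hG'⟩ := dslope_grow hal hl hr hrb hH hG
  rw [split_line 1 hal hl hr hrb (by linarith) le_rfl hr.ne' hH hG,
    split_line 1 hal hl hr hrb le_rfl (by linarith) hl.ne hH hG]
  have h1 := res1 hal hl hr hrb hD hG'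
  have h2 := JJ2_diff hl hr
  rw [dslope_same] at h1
  linear_combination H 0 * h2 + h1

end Pool.Agent.Y185.NV
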